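import Mathlib

set_option autoImplicit false

open scoped Manifold ContDiff Topology

namespace Pool.Agent.H152Z.Cartan

variable (E : Type) [NormedAddCommGroup E] [NormedSpace ℂ E]
  {M : Type} [TopologicalSpace M] [ChartedSpace E M]

/-- The coordinate vector field of the chart at `x₀` with constant coordinates `v`, evaluated at the
point whose coordinate is `y`. -/
noncomputable def vec (x₀ : M) (y v : E) : TangentSpace 𝓘(ℂ, E) ((chartAt E x₀).symm y) :=
  mfderiv 𝓘(ℂ, E) 𝓘(ℂ, E) (chartAt E x₀).symm y v

/-- `g` is a Kähler metric on the complex manifold `M`: a real inner product on each tangent space,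
invariant under multiplication by `i`, smooth in charts, whose fundamental two-form
`(v, w) ↦ g (i v, w)` is closed (written in every chart for constant vector fields). -/
structure IsKahlerMetric
    (g : (x : M) → TangentSpace 𝓘(ℂ, E) x → TangentSpace 𝓘(ℂ, E) x → ℝ) : Prop where
  add_left : ∀ x u v w, g x (u + v) w = g x u w + g x v w
  smul_left : ∀ x (r : ℝ) v w, g x ((r : ℂ) • v) w = r * g x v w
  symm : ∀ x v w, g x v w = g x w v
  pos : ∀ x v, v ≠ 0 → 0 < g x v v
  hermitian : ∀ x v w, g x (Complex.I • v) (Complex.I • w) = g x v w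
  smooth : ∀ (x₀ : M) (v w : E),
    ContDiffOn ℝ ∞ (fun y => g _ (vec E x₀ y v) (vec E x₀ y w)) (chartAt E x₀).target
  closed : ∀ (x₀ : M), ∀ y ∈ (chartAt E x₀).target, ∀ u v w : E,
    fderiv ℝ (fun y' => g _ (Complex.I • vec E x₀ y' v) (vec E x₀ y' w)) y u +
      fderiv ℝ (fun y' => g _ (Complex.I • vec E x₀ y' w) (vec E x₀ y' u)) y v +
      fderiv ℝ (fun y' => g _ (Complex.I • vec E x₀ y' u) (vec E x₀ y' v)) y w = 0

/-- A holomorphic Cartan geometry modelled on `G / H` with `H` the trivial subgroup.  The principal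
`H`-bundle is `M` itself, the equivariance and fundamental vector field conditions are empty, and
what remains is a holomorphic one-form `θ` on `M` with values in the Lie algebra of `G` which is a
linear isomorphism at every point. -/
structure IsCartanForm (G : Type) [Group G] [TopologicalSpace G] [ChartedSpace E G]
    (θ : (x : M) → TangentSpace 𝓘(ℂ, E) x →L[ℂ] GroupLieAlgebra 𝓘(ℂ, E) G) : Prop where
  bijective : ∀ x, Function.Bijective (θ x)
  holomorphic : ∀ (x₀ : M) (v : E),
    DifferentiableOn ℂ (F := E) (fun y => θ _ (vec E x₀ y v)) (chartAt E x₀).target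

/-- The complex manifold `X` is biholomorphic to a product `P × Y` of a compact connected Riemann
surface `P` (for instance the projective line) and a complex manifold `Y`. -/
def IsCurveProduct (X : Type) [TopologicalSpace X] [ChartedSpace E X] : Prop :=
  ∃ (P : Type) (_ : TopologicalSpace P) (_ : ChartedSpace ℂ P) (_ : IsManifold 𝓘(ℂ, ℂ) ω P)
    (_ : CompactSpace P) (_ : ConnectedSpace P)
    (F : Type) (_ : NormedAddCommGroup F) (_ : NormedSpace ℂ F)
    (Y : Type) (_ : TopologicalSpace Y) (_ : ChartedSpace F Y) (_ : IsManifold 𝓘(ℂ, F) ω Y),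
    Nonempty (Diffeomorph (𝓘(ℂ, ℂ).prod 𝓘(ℂ, F)) 𝓘(ℂ, E) (P × Y) X ω)

end Pool.Agent.H152Z.Cartan
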