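import Mathlib
import Pool.Agent.H20Z.CartanDefs

set_option autoImplicit false

open scoped Manifold ContDiff Topology

namespace Pool.Agent.H152Z.Cartan2

open Pool.Agent.H20Z.Cartan

/-- The complex manifold `X` is biholomorphic to a product `P × Y` of a compact connected Riemann
surface `P` (for instance the projective line) and a complex manifold `Y`. -/
def IsCurveProduct (n : ℕ) (X : Type) [TopologicalSpace X] [ChartedSpace (Cn n) X] : Prop :=
  ∃ (P : Type) (_ : TopologicalSpace P) (_ : ChartedSpace ℂ P) (_ : IsManifold 𝓘(ℂ, ℂ) ω P)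
    (_ : CompactSpace P) (_ : ConnectedSpace P) (k : ℕ)
    (Y : Type) (_ : TopologicalSpace Y) (_ : ChartedSpace (Cn k) Y)
    (_ : IsManifold 𝓘(ℂ, Cn k) ω Y),
    Nonempty (Diffeomorph (𝓘(ℂ, ℂ).prod 𝓘(ℂ, Cn k)) 𝓘(ℂ, Cn n) (P × Y) X ω)

end Pool.Agent.H152Z.Cartan2
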