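import Mathlib
import Pool.Agent.H152Z.Cartan.Defs

set_option autoImplicit false

open scoped Manifold ContDiff Topology
open Set

namespace Pool.Agent.H152Z.Cartan

theorem localHomeo_prodMap {X Y X' Y' : Type} [TopologicalSpace X] [TopologicalSpace Y]
    [TopologicalSpace X'] [TopologicalSpace Y'] {f : X → Y} {g : X' → Y'}
    (hf : IsLocalHomeomorph f) (hg : IsLocalHomeomorph g) : IsLocalHomeomorph (Prod.map f g) := by
  rintro ⟨x, x'⟩
  obtain ⟨e, he, rfl⟩ := hf x
  obtain ⟨e', he', rfl⟩ := hg x'
  exact ⟨e.prod e', ⟨he, he'⟩, rfl⟩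

/-- the model space -/
abbrev E2 : Type := ℂ × ℂ

/-- the real four-torus -/
def T4 : Type := (AddCircle (1 : ℝ) × AddCircle (1 : ℝ)) × (AddCircle (1 : ℝ) × AddCircle (1 : ℝ))

noncomputable instance : TopologicalSpace T4 := inferInstanceAs (TopologicalSpace
  ((AddCircle (1 : ℝ) × AddCircle (1 : ℝ)) × (AddCircle (1 : ℝ) × AddCircle (1 : ℝ))))

noncomputable instance : AddCommGroup T4 := inferInstanceAs (AddCommGroup
  ((AddCircle (1 : ℝ) × AddCircle (1 : ℝ)) × (AddCircle (1 : ℝ) × AddCircle (1 : ℝ))))

instance : CompactSpace T4 := inferInstanceAs (CompactSpace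
  ((AddCircle (1 : ℝ) × AddCircle (1 : ℝ)) × (AddCircle (1 : ℝ) × AddCircle (1 : ℝ))))

instance : T2Space T4 := inferInstanceAs (T2Space
  ((AddCircle (1 : ℝ) × AddCircle (1 : ℝ)) × (AddCircle (1 : ℝ) × AddCircle (1 : ℝ))))

instance : SecondCountableTopology T4 := inferInstanceAs (SecondCountableTopology
  ((AddCircle (1 : ℝ) × AddCircle (1 : ℝ)) × (AddCircle (1 : ℝ) × AddCircle (1 : ℝ))))

/-- the projection of one factor -/
noncomputable def q1 (z : ℂ) : AddCircle (1 : ℝ) × AddCircle (1 : ℝ) := (z.re, z.im)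

theorem q1_local : IsLocalHomeomorph q1 := by
  have h1 : IsLocalHomeomorph (Prod.map ((↑) : ℝ → AddCircle (1 : ℝ)) ((↑) : ℝ → AddCircle (1 : ℝ))) :=
    localHomeo_prodMap (AddCircle.isLocalHomeomorph_coe _) (AddCircle.isLocalHomeomorph_coe _)
  exact h1.comp Complex.equivRealProdCLM.toHomeomorph.isLocalHomeomorph

theorem q1_surj : Function.Surjective q1 := by
  rintro ⟨a, b⟩
  obtain ⟨x, rfl⟩ := QuotientAddGroup.mk_surjective a
  obtain ⟨y, rfl⟩ := QuotientAddGroup.mk_surjective b
  exact ⟨⟨x, y⟩, rfl⟩

theorem q1_add (z w : ℂ) : q1 (z + w) = q1 z + q1 w := by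
  simp [q1]

/-- the projection onto the torus -/
noncomputable def q (p : E2) : T4 := Prod.map q1 q1 p

theorem q_local : IsLocalHomeomorph q := localHomeo_prodMap q1_local q1_local

theorem q_surj : Function.Surjective q := q1_surj.prodMap q1_surj

theorem q_add (u v : E2) : q (u + v) = q u + q v := by
  apply Prod.ext
  · exact q1_add _ _
  · exact q1_add _ _

instance : ConnectedSpace T4 := q_surj.connectedSpace q_local.continuous

noncomputable instance : ChartedSpace E2 T4 where
  atlas := range fun x : E2 => q_local.localInverseAt x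
  chartAt x := q_local.localInverseAt (q_surj x).choose
  mem_chart_source x := by
    have h := q_local.apply_self_mem_localInverseAt_source (x := (q_surj x).choose)
    rwa [(q_surj x).choose_spec] at h
  chart_mem_atlas x := ⟨_, rfl⟩

theorem chart_symm (x : T4) : ((chartAt E2 x).symm : E2 → T4) = q :=
  q_local.localInverseAt_symm _

theorem local_translate (x v : E2) (hv : q v ∈ (q_local.localInverseAt x).source) :
    ∃ c : E2, ∀ᶠ u in 𝓝 v, q_local.localInverseAt x (q u) = u + c := by
  set L := q_local.localInverseAt x with hL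
  set w := L (q v) with hw
  have hqw : q w = q v := q_local.apply_localInverseAt_of_mem hv
  refine ⟨w - v, ?_⟩
  have hq0 : q (w - v) = 0 := by
    have h1 := q_add (w - v) v
    rw [sub_add_cancel, hqw] at h1
    exact (add_eq_right.1 h1.symm)
  have hwt : w ∈ L.target := L.map_source hv
  have h1 : ∀ᶠ u in 𝓝 v, u + (w - v) ∈ L.target := by
    have hc : Continuous fun u : E2 => u + (w - v) := by fun_prop
    have : v + (w - v) ∈ L.target := by rw [add_sub_cancel]; exact hwt
    exact hc.continuousAt.preimage_mem_nhds (L.open_target.mem_nhds this)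
  have h2 : ∀ᶠ u in 𝓝 v, q u ∈ L.source :=
    q_local.continuous.continuousAt.preimage_mem_nhds (L.open_source.mem_nhds hv)
  filter_upwards [h1, h2] with u hu1 hu2
  apply q_local.injOn_localInverseAt_target (x := x)
  · exact L.map_source hu2
  · exact hu1
  · rw [q_local.apply_localInverseAt_of_mem hu2, q_add, hq0, add_zero]

instance : IsManifold 𝓘(ℂ, E2) ω T4 := by
  apply isManifold_of_contDiffOn
  rintro e e' ⟨x, rfl⟩ ⟨x', rfl⟩
  intro v hv
  simp only [modelWithCornersSelf_coe, modelWithCornersSelf_coe_symm, preimage_id_eq, id_eq,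
    range_id, inter_univ, OpenPartialHomeomorph.coe_trans, Function.comp_def,
    IsLocalHomeomorph.localInverseAt_symm] at hv ⊢
  rw [OpenPartialHomeomorph.trans_source] at hv
  have hv2 : q v ∈ (q_local.localInverseAt x').source := by
    have := hv.2
    rwa [mem_preimage, q_local.localInverseAt_symm] at this
  obtain ⟨c, hc⟩ := local_translate x' v hv2
  have h0 : ContDiff ℂ ω fun u : E2 => u + c := by fun_prop
  exact (h0.contDiffAt.congr_of_eventuallyEq hc).contDiffWithinAt

theorem hasMFDerivAt_q (y : E2) :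
    HasMFDerivAt 𝓘(ℂ, E2) 𝓘(ℂ, E2) q y (ContinuousLinearMap.id ℂ E2) := by
  refine ⟨q_local.continuous.continuousAt, ?_⟩
  obtain ⟨c, hc⟩ := local_translate (q_surj (q y)).choose y (mem_chart_source E2 (q y))
  have h1 : HasFDerivAt (fun u : E2 => u + c) (ContinuousLinearMap.id ℂ E2) y :=
    (hasFDerivAt_id y).add_const c
  have h2 := h1.congr_of_eventuallyEq hc
  simp only [writtenInExtChartAt, extChartAt_model_space_eq_id, PartialEquiv.refl_symm,
    PartialEquiv.refl_coe, modelWithCornersSelf_coe, range_id, id_eq, hasFDerivWithinAt_univ]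
  exact h2

theorem vec_eq (x₀ : T4) (y v : E2) : (vec E2 x₀ y v : E2) = v := by
  unfold vec
  have h : HasMFDerivAt 𝓘(ℂ, E2) 𝓘(ℂ, E2) (chartAt E2 x₀).symm y (ContinuousLinearMap.id ℂ E2) := by
    have := hasMFDerivAt_q y
    rw [← chart_symm x₀] at this
    exact this
  rw [h.mfderiv]
  rfl

/-- the flat metric -/
def flat (v w : E2) : ℝ := v.1.re * w.1.re + v.1.im * w.1.im + v.2.re * w.2.re + v.2.im * w.2.im

theorem flat_add (u v w : E2) : flat (u + v) w = flat u w + flat v w := by
  simp [flat]; ring

theorem flat_smul (r : ℝ) (v w : E2) : flat ((r : ℂ) • v) w = r * flat v w := by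
  simp [flat]; ring

theorem flat_I (v w : E2) : flat (Complex.I • v) (Complex.I • w) = flat v w := by
  simp [flat]; ring

theorem flat_symm (v w : E2) : flat v w = flat w v := by
  simp [flat]; ring

theorem flat_pos (v : E2) (hv : v ≠ 0) : 0 < flat v v := by
  by_contra h
  apply hv
  simp only [flat] at h
  have a1 := mul_self_nonneg v.1.re
  have a2 := mul_self_nonneg v.1.im
  have a3 := mul_self_nonneg v.2.re
  have a4 := mul_self_nonneg v.2.im
  have h1 : v.1.re = 0 := mul_self_eq_zero.1 (by linarith)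
  have h2 : v.1.im = 0 := mul_self_eq_zero.1 (by linarith)
  have h3 : v.2.re = 0 := mul_self_eq_zero.1 (by linarith)
  have h4 : v.2.im = 0 := mul_self_eq_zero.1 (by linarith)
  exact Prod.ext (Complex.ext h1 h2) (Complex.ext h3 h4)

theorem kahler_T4 : IsKahlerMetric E2 (M := T4) (fun _ v w => flat v w) where
  add_left _ u v w := flat_add u v w
  smul_left _ r v w := flat_smul r v w
  symm _ v w := flat_symm v w
  pos _ v hv := flat_pos v hv
  hermitian _ v w := flat_I v w
  smooth x₀ v w := by
    have : (fun y => flat (vec E2 x₀ y v) (vec E2 x₀ y w)) = fun _ => flat v w := by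
      funext y; rw [vec_eq, vec_eq]
    rw [this]
    exact contDiffOn_const
  closed x₀ y _ u v w := by
    have : ∀ v w : E2, (fun y' => flat (Complex.I • vec E2 x₀ y' v : TangentSpace 𝓘(ℂ, E2) _)
        (vec E2 x₀ y' w)) = fun _ => flat (Complex.I • v) w := by
      intro v w
      funext y'
      rw [vec_eq, vec_eq]
      rfl
    rw [this, this, this]
    simp

end Pool.Agent.H152Z.Cartan
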