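import Mathlib
import Pool.Agent.H152Z.Cartan.Torus

set_option autoImplicit false

open scoped Manifold ContDiff Topology
open Set Filter Complex

namespace Pool.Agent.H152Z.Cartan

/-- the universal cover of the complex affine group of the line -/
def GA : Type := ℂ × ℂ

noncomputable instance : TopologicalSpace GA := inferInstanceAs (TopologicalSpace (ℂ × ℂ))
instance : T2Space GA := inferInstanceAs (T2Space (ℂ × ℂ))
instance : SecondCountableTopology GA := inferInstanceAs (SecondCountableTopology (ℂ × ℂ))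
instance : ConnectedSpace GA := inferInstanceAs (ConnectedSpace (ℂ × ℂ))
noncomputable instance : ChartedSpace E2 GA := chartedSpaceSelf E2

noncomputable instance : Group GA where
  mul p r := (p.1 + r.1, p.2 + exp p.1 * r.2)
  one := ((0 : ℂ), (0 : ℂ))
  inv p := (-p.1, -(exp (-p.1) * p.2))
  mul_assoc p r s := by
    change ((p.1 + r.1) + s.1, (p.2 + exp p.1 * r.2) + exp (p.1 + r.1) * s.2) =
      (p.1 + (r.1 + s.1), p.2 + exp p.1 * (r.2 + exp r.1 * s.2))
    rw [Complex.exp_add]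
    apply Prod.ext <;> simp only <;> ring
  one_mul p := by
    change ((0 : ℂ) + p.1, (0 : ℂ) + exp 0 * p.2) = p
    simp
  mul_one p := by
    change (p.1 + (0 : ℂ), p.2 + exp p.1 * 0) = p
    simp
  inv_mul_cancel p := by
    change (-p.1 + p.1, -(exp (-p.1) * p.2) + exp (-p.1) * p.2) = ((0 : ℂ), (0 : ℂ))
    simp

theorem mul_fst (p r : GA) : (p * r).1 = p.1 + r.1 := rfl
theorem mul_snd (p r : GA) : (p * r).2 = p.2 + exp p.1 * r.2 := rfl
theorem inv_fst (p : GA) : (p⁻¹).1 = -p.1 := rfl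
theorem inv_snd (p : GA) : (p⁻¹).2 = -(exp (-p.1) * p.2) := rfl
theorem one_fst : (1 : GA).1 = 0 := rfl
theorem one_snd : (1 : GA).2 = 0 := rfl

instance : IsManifold 𝓘(ℂ, E2) ω GA := inferInstanceAs (IsManifold 𝓘(ℂ, E2) ω E2)

instance : LieGroup 𝓘(ℂ, E2) ω GA where
  contMDiff_mul := by
    have h1 : ContDiff ℂ ω fun x : E2 × E2 => ((x.1.1 + x.2.1, x.1.2 + exp x.1.1 * x.2.2) : E2) := by
      fun_prop
    have h2 : ContMDiff (𝓘(ℂ, E2).prod 𝓘(ℂ, E2)) 𝓘(ℂ, E2 × E2) ω
        fun x : E2 × E2 => ((x.1, x.2) : E2 × E2) := contMDiff_fst.prodMk_space contMDiff_snd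
    exact h1.comp_contMDiff h2
  contMDiff_inv := by
    have h1 : ContDiff ℂ ω fun x : E2 => ((-x.1, -(exp (-x.1) * x.2)) : E2) := by fun_prop
    exact h1.contMDiff

instance : IsTopologicalGroup GA := topologicalGroup_of_lieGroup 𝓘(ℂ, E2) ω

instance : SimplyConnectedSpace GA := inferInstanceAs (SimplyConnectedSpace (ℂ × ℂ))

theorem cartan_T4 : IsCartanForm E2 (M := T4) GA (fun _ => ContinuousLinearMap.id ℂ E2) where
  bijective _ := Function.bijective_id
  holomorphic x₀ v := by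
    have : (fun y => ((ContinuousLinearMap.id ℂ E2) (vec E2 x₀ y v) : E2)) = fun _ => v := by
      funext y; exact vec_eq x₀ y v
    have h2 : DifferentiableOn ℂ
        (fun y => ((ContinuousLinearMap.id ℂ E2) (vec E2 x₀ y v) : E2)) (chartAt E2 x₀).target := by
      rw [this]; exact differentiableOn_const v
    exact h2

theorem not_product : ¬ IsCurveProduct E2 GA := by
  rintro ⟨P, _, _, _, _, _, F, _, _, Y, _, _, _, ⟨Φ⟩⟩
  obtain ⟨p₀, y₀⟩ := Φ.symm 1
  have h1 : MDifferentiable 𝓘(ℂ, ℂ) 𝓘(ℂ, E2) (fun p : P => (Φ (p, y₀) : E2)) := by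
    have h2 : MDifferentiable (𝓘(ℂ, ℂ).prod 𝓘(ℂ, F)) 𝓘(ℂ, E2) Φ :=
      Φ.contMDiff.mdifferentiable (by simp)
    exact h2.comp (mdifferentiable_id.prodMk mdifferentiable_const)
  have h3 : ∀ p : P, p = p₀ := by
    intro p
    have h4 : Φ (p, y₀) = Φ (p₀, y₀) := h1.apply_eq_of_compactSpace p p₀
    exact congrArg Prod.fst (Φ.injective h4)
  have h5 : (chartAt ℂ p₀).target = {chartAt ℂ p₀ p₀} := by
    ext z
    constructor
    · intro hz
      rw [← (chartAt ℂ p₀).right_inv hz, h3 ((chartAt ℂ p₀).symm z)]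
      rfl
    · rintro rfl
      exact mem_chart_target ℂ p₀
  have h6 := (chartAt ℂ p₀).open_target
  rw [h5] at h6
  exact not_isOpen_singleton _ h6

theorem conj_pow (γ : GA) (β : ℂ) (n : ℕ) :
    γ ^ n * (show GA from ((0 : ℂ), β)) * (γ ^ n)⁻¹ = (show GA from ((0 : ℂ), exp (n * γ.1) * β)) := by
  have h1 : (γ ^ n).1 = n * γ.1 := by
    induction n with
    | zero => simp [one_fst]
    | succ n ih => rw [pow_succ, mul_fst, ih]; push_cast; ring
  apply Prod.ext
  · simp [mul_fst, inv_fst]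
  · simp only [mul_fst, mul_snd, inv_snd, add_zero, h1]
    have : exp (n * γ.1) * exp (-(n * γ.1)) = 1 := by rw [← Complex.exp_add]; simp
    linear_combination (-(γ ^ n).2) * this

theorem no_lattice (G' : Subgroup GA) (hG : ∀ g, g ∈ G') (Γ : Subgroup G') [DiscreteTopology Γ] :
    ¬ CompactSpace (G' ⧸ Γ) := by
  intro hc
  -- a continuous function on the group which is invariant under the lattice is bounded
  have hbd : ∀ f : GA → ℂ, Continuous f → (∀ g : GA, ∀ γ : G', γ ∈ Γ → f (g * γ) = f g) →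
      ∃ C : ℝ, ∀ g, ‖f g‖ ≤ C := by
    intro f hf hinv
    let F : G' ⧸ Γ → ℂ := Quotient.lift (fun g : G' => f g) (by
      intro a b hab
      have h1 : a⁻¹ * b ∈ Γ := QuotientGroup.leftRel_apply.1 hab
      have h2 := hinv a _ h1
      simp only [Subgroup.coe_mul, Subgroup.coe_inv, mul_inv_cancel_left] at h2
      exact h2.symm)
    have hF : Continuous F := Continuous.quotient_lift (hf.comp continuous_subtype_val) _
    obtain ⟨C, hC⟩ := isCompact_univ.exists_bound_of_continuousOn hF.continuousOn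
    exact ⟨C, fun g => hC (QuotientGroup.mk ⟨g, hG g⟩) (mem_univ _)⟩
  -- a contracting element
  obtain ⟨γ, hγ, hre⟩ : ∃ γ : G', γ ∈ Γ ∧ (γ : GA).1.re < 0 := by
    by_contra hcon
    push Not at hcon
    have h0 : ∀ γ : G', γ ∈ Γ → (γ : GA).1.re = 0 := by
      intro γ hγ
      have h1 := hcon γ hγ
      have h2 := hcon γ⁻¹ (Γ.inv_mem hγ)
      rw [Subgroup.coe_inv, inv_fst, neg_re] at h2
      linarith
    obtain ⟨C, hC⟩ := hbd (fun g => (g.1.re : ℂ))
      (continuous_ofReal.comp (continuous_re.comp continuous_fst))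
      (fun g γ hγ => by rw [mul_fst, add_re, h0 γ hγ, add_zero])
    have h3 := hC (show GA from (((|C| + 1 : ℝ) : ℂ), (0 : ℂ)))
    simp only [ofReal_re, Complex.norm_real, Real.norm_eq_abs] at h3
    have h4 := le_abs_self (|C| + 1)
    have h5 := le_abs_self C
    linarith
  have hnorm : ‖exp (γ : GA).1‖ < 1 := by
    rw [Complex.norm_exp]; exact Real.exp_lt_one_iff.2 hre
  -- the lattice contains no translation
  have htr : ∀ δ : G', δ ∈ Γ → (δ : GA).1 = 0 → (δ : GA).2 = 0 := by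
    intro δ hδ h1
    have hδe : (δ : GA) = (show GA from ((0 : ℂ), (δ : GA).2)) := Prod.ext h1 rfl
    let s : ℕ → Γ := fun n => ⟨γ ^ n * δ * (γ ^ n)⁻¹,
      Γ.mul_mem (Γ.mul_mem (Γ.pow_mem hγ n) hδ) (Γ.inv_mem (Γ.pow_mem hγ n))⟩
    have hs : ∀ n, ((s n : G') : GA) = (show GA from ((0 : ℂ), exp (n * (γ : GA).1) * (δ : GA).2)) := by
      intro n
      rw [← conj_pow, ← hδe]
      simp [s]
    have hlim : Tendsto s atTop (𝓝 1) := by
      rw [tendsto_subtype_rng, tendsto_subtype_rng]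
      simp only [hs]
      have h2 : Tendsto (fun n : ℕ => exp (n * (γ : GA).1) * (δ : GA).2) atTop (𝓝 0) := by
        have h3 := (tendsto_pow_atTop_nhds_zero_of_norm_lt_one hnorm).mul_const (δ : GA).2
        rw [zero_mul] at h3
        refine h3.congr fun n => ?_
        rw [Complex.exp_nat_mul]
      exact (tendsto_const_nhds (x := (0 : ℂ))).prodMk_nhds h2
    rw [nhds_discrete, tendsto_pure] at hlim
    obtain ⟨n, hn⟩ := hlim.exists
    have h4 := congrArg Prod.snd (hs n)
    rw [hn] at h4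
    have h5 : exp (n * (γ : GA).1) * (δ : GA).2 = 0 := h4.symm
    exact (mul_eq_zero.1 h5).resolve_left (Complex.exp_ne_zero _)
  -- the common fixed point
  have hne : 1 - exp (γ : GA).1 ≠ 0 := by
    intro h
    have : exp (γ : GA).1 = 1 := by linear_combination -h
    rw [this] at hnorm
    simp at hnorm
  set z₀ : ℂ := (γ : GA).2 / (1 - exp (γ : GA).1) with hz₀
  have hfix : ∀ δ : G', δ ∈ Γ → exp (δ : GA).1 * z₀ + (δ : GA).2 = z₀ := by
    intro δ hδ
    have h1 := htr ((γ * δ) * (δ * γ)⁻¹)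
      (Γ.mul_mem (Γ.mul_mem hγ hδ) (Γ.inv_mem (Γ.mul_mem hδ hγ)))
      (by simp only [Subgroup.coe_mul, Subgroup.coe_inv, mul_fst, inv_fst]; ring)
    simp only [Subgroup.coe_mul, Subgroup.coe_inv, mul_fst, mul_snd, inv_snd] at h1
    have h2 : exp ((γ : GA).1 + (δ : GA).1) * exp (-((δ : GA).1 + (γ : GA).1)) = 1 := by
      rw [← Complex.exp_add, add_comm (δ : GA).1, add_neg_cancel, Complex.exp_zero]
    have h3 : (γ : GA).2 + exp (γ : GA).1 * (δ : GA).2 = (δ : GA).2 + exp (δ : GA).1 * (γ : GA).2 := by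
      linear_combination h1 + ((δ : GA).2 + exp (δ : GA).1 * (γ : GA).2) * h2
    rw [hz₀]
    field_simp
    linear_combination -h3
  obtain ⟨C, hC⟩ := hbd (fun g => exp g.1 * z₀ + g.2)
    (((Complex.continuous_exp.comp continuous_fst).mul continuous_const).add continuous_snd)
    (fun g δ hδ => by
      rw [mul_fst, mul_snd, Complex.exp_add]
      linear_combination (exp g.1) * hfix δ hδ)
  have h3 := hC (show GA from ((0 : ℂ), ((|C| + 1 : ℝ) : ℂ) - z₀))
  simp only [Complex.exp_zero, one_mul, add_sub_cancel, Complex.norm_real, Real.norm_eq_abs] at h3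
  have h4 := le_abs_self (|C| + 1)
  have h5 := le_abs_self C
  linarith

theorem open_orbit (G' : Subgroup GA) (x : GA) (h : IsOpen (MulAction.orbit G' x)) : ∀ g, g ∈ G' := by
  have h1 : (G' : Set GA) = (fun g => g * x) ⁻¹' MulAction.orbit G' x := by
    ext g
    constructor
    · intro hg
      exact ⟨⟨g, hg⟩, rfl⟩
    · rintro ⟨a, ha⟩
      have : (a : GA) * x = g * x := ha
      rw [← mul_right_cancel this]
      exact a.2
  have h2 : IsOpen (G' : Set GA) := by
    rw [h1]; exact h.preimage (continuous_mul_const x)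
  have h3 : IsClopen (G' : Set GA) := ⟨G'.isClosed_of_isOpen h2, h2⟩
  have h4 := h3.eq_univ ⟨1, G'.one_mem⟩
  intro g
  have : g ∈ (G' : Set GA) := h4 ▸ mem_univ g
  exact this

end Pool.Agent.H152Z.Cartan
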