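import Mathlib
import Pool.Agent.H20Z.CartanMain
import Pool.Agent.H152Z.Cartan.Defs2

set_option autoImplicit false

open scoped Manifold ContDiff Topology
open Set Filter Complex

namespace Pool.Agent.H152Z.Cartan2

open Pool.Agent.H20Z.Cartan

/-- first coordinate -/
def p1 (g : Aff) : ℂ := (show Cn 2 from g) 0
/-- second coordinate -/
def p2 (g : Aff) : ℂ := (show Cn 2 from g) 1
/-- the element with given coordinates -/
def mk (a b : ℂ) : Aff := (![a, b] : Cn 2)

@[simp] theorem p1_mk (a b : ℂ) : p1 (mk a b) = a := rfl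
@[simp] theorem p2_mk (a b : ℂ) : p2 (mk a b) = b := rfl
theorem ext' {g h : Aff} (h1 : p1 g = p1 h) (h2 : p2 g = p2 h) : g = h := Cn2_ext h1 h2
theorem mul_fst (p r : Aff) : p1 (p * r) = p1 p + p1 r := rfl
theorem mul_snd (p r : Aff) : p2 (p * r) = p2 p + exp (p1 p) * p2 r := rfl
theorem inv_fst (p : Aff) : p1 p⁻¹ = -p1 p := rfl
theorem inv_snd (p : Aff) : p2 p⁻¹ = -(exp (-p1 p) * p2 p) := rfl
theorem one_fst : p1 (1 : Aff) = 0 := rfl
theorem one_snd : p2 (1 : Aff) = 0 := rfl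
theorem cont_p1 : Continuous p1 := continuous_apply (A := fun _ : Fin 2 => ℂ) 0
theorem cont_p2 : Continuous p2 := continuous_apply (A := fun _ : Fin 2 => ℂ) 1
theorem cont_mk0 : Continuous (mk 0) := by
  have : Continuous fun b : ℂ => (![0, b] : Cn 2) := by fun_prop
  exact this

instance : IsTopologicalGroup Aff := topologicalGroup_of_lieGroup 𝓘(ℂ, Cn 2) ω

theorem not_product : ¬ IsCurveProduct 2 Aff := by
  rintro ⟨P, _, _, _, _, _, k, Y, _, _, _, ⟨Φ⟩⟩
  obtain ⟨p₀, y₀⟩ := Φ.symm 1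
  have h1 : MDifferentiable 𝓘(ℂ, ℂ) 𝓘(ℂ, Cn 2) (fun p : P => (Φ (p, y₀) : Cn 2)) := by
    have h2 : MDifferentiable (𝓘(ℂ, ℂ).prod 𝓘(ℂ, Cn k)) 𝓘(ℂ, Cn 2) Φ :=
      Φ.contMDiff.mdifferentiable (by simp)
    exact h2.comp (mdifferentiable_id.prodMk mdifferentiable_const)
  have h3 : ∀ p : P, p = p₀ := by
    intro p
    have h4 : Φ (p, y₀) = Φ (p₀, y₀) := h1.apply_eq_of_compactSpace p p₀
    exact congrArg Prod.fst (Φ.injective h4)
  have h5 : (chartAt ℂ p₀).target = {chartAt ℂ p₀ p₀} := by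
    ext z
    constructor
    · intro hz
      rw [← (chartAt ℂ p₀).right_inv hz, h3 ((chartAt ℂ p₀).symm z)]
      rfl
    · rintro rfl
      exact mem_chart_target ℂ p₀
  have h6 := (chartAt ℂ p₀).open_target
  rw [h5] at h6
  exact not_isOpen_singleton _ h6

theorem conj_pow (γ : Aff) (β : ℂ) (n : ℕ) :
    γ ^ n * mk 0 β * (γ ^ n)⁻¹ = mk 0 (exp (n * p1 γ) * β) := by
  have h1 : p1 (γ ^ n) = n * p1 γ := by
    induction n with
    | zero => simp [one_fst]
    | succ n ih => rw [pow_succ, mul_fst, ih]; push_cast; ring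
  apply ext'
  · simp [mul_fst, inv_fst]
  · simp only [mul_fst, mul_snd, inv_snd, p1_mk, p2_mk, add_zero, h1]
    have : exp (n * p1 γ) * exp (-(n * p1 γ)) = 1 := by rw [← Complex.exp_add]; simp
    linear_combination (-p2 (γ ^ n)) * this

theorem no_lattice (G' : Subgroup Aff) (hG : ∀ g, g ∈ G') (Γ : Subgroup G') [DiscreteTopology Γ] :
    ¬ CompactSpace (G' ⧸ Γ) := by
  intro hc
  -- a continuous function on the group which is invariant under the lattice is bounded
  have hbd : ∀ f : Aff → ℂ, Continuous f → (∀ g : Aff, ∀ γ : G', γ ∈ Γ → f (g * γ) = f g) →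
      ∃ C : ℝ, ∀ g, ‖f g‖ ≤ C := by
    intro f hf hinv
    let F : G' ⧸ Γ → ℂ := Quotient.lift (fun g : G' => f g) (by
      intro a b hab
      have h1 : a⁻¹ * b ∈ Γ := QuotientGroup.leftRel_apply.1 hab
      have h2 := hinv a _ h1
      simp only [Subgroup.coe_mul, Subgroup.coe_inv, mul_inv_cancel_left] at h2
      exact h2.symm)
    have hF : Continuous F := Continuous.quotient_lift (hf.comp continuous_subtype_val) _
    obtain ⟨C, hC⟩ := isCompact_univ.exists_bound_of_continuousOn hF.continuousOn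
    exact ⟨C, fun g => hC (QuotientGroup.mk ⟨g, hG g⟩) (mem_univ _)⟩
  -- a contracting element
  obtain ⟨γ, hγ, hre⟩ : ∃ γ : G', γ ∈ Γ ∧ (p1 γ).re < 0 := by
    by_contra hcon
    push Not at hcon
    have h0 : ∀ γ : G', γ ∈ Γ → (p1 γ).re = 0 := by
      intro γ hγ
      have h1 := hcon γ hγ
      have h2 := hcon γ⁻¹ (Γ.inv_mem hγ)
      rw [Subgroup.coe_inv, inv_fst, neg_re] at h2
      linarith
    obtain ⟨C, hC⟩ := hbd (fun g => ((p1 g).re : ℂ))
      (continuous_ofReal.comp (continuous_re.comp cont_p1))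
      (fun g γ hγ => by rw [mul_fst, add_re, h0 γ hγ, add_zero])
    have h3 := hC (mk ((|C| + 1 : ℝ) : ℂ) 0)
    simp only [p1_mk, ofReal_re, Complex.norm_real, Real.norm_eq_abs] at h3
    have h4 := le_abs_self (|C| + 1)
    have h5 := le_abs_self C
    linarith
  have hnorm : ‖exp (p1 γ)‖ < 1 := by
    rw [Complex.norm_exp]; exact Real.exp_lt_one_iff.2 hre
  -- the lattice contains no translation
  have htr : ∀ δ : G', δ ∈ Γ → (p1 δ) = 0 → (p2 δ) = 0 := by
    intro δ hδ h1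
    have hδe : (δ : Aff) = mk 0 (p2 δ) := ext' h1 rfl
    let s : ℕ → Γ := fun n => ⟨γ ^ n * δ * (γ ^ n)⁻¹,
      Γ.mul_mem (Γ.mul_mem (Γ.pow_mem hγ n) hδ) (Γ.inv_mem (Γ.pow_mem hγ n))⟩
    have hs : ∀ n, ((s n : G') : Aff) = mk 0 (exp (n * p1 γ) * p2 δ) := by
      intro n
      rw [← conj_pow, ← hδe]
      simp [s]
    have hlim : Tendsto s atTop (𝓝 1) := by
      rw [tendsto_subtype_rng, tendsto_subtype_rng]
      simp only [hs]
      have h2 : Tendsto (fun n : ℕ => exp (n * (p1 γ)) * (p2 δ)) atTop (𝓝 0) := by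
        have h3 := (tendsto_pow_atTop_nhds_zero_of_norm_lt_one hnorm).mul_const (p2 δ)
        rw [zero_mul] at h3
        refine h3.congr fun n => ?_
        rw [Complex.exp_nat_mul]
      have h6 := (cont_mk0.tendsto 0).comp h2
      have h7 : mk 0 0 = 1 := ext' rfl rfl
      rw [h7] at h6
      exact h6
    rw [nhds_discrete, tendsto_pure] at hlim
    obtain ⟨n, hn⟩ := hlim.exists
    have h4 := congrArg p2 (hs n)
    rw [hn] at h4
    have h5 : exp (n * (p1 γ)) * (p2 δ) = 0 := h4.symm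
    exact (mul_eq_zero.1 h5).resolve_left (Complex.exp_ne_zero _)
  -- the common fixed point
  have hne : 1 - exp (p1 γ) ≠ 0 := by
    intro h
    have : exp (p1 γ) = 1 := by linear_combination -h
    rw [this] at hnorm
    simp at hnorm
  set z₀ : ℂ := (p2 γ) / (1 - exp (p1 γ)) with hz₀
  have hfix : ∀ δ : G', δ ∈ Γ → exp (p1 δ) * z₀ + (p2 δ) = z₀ := by
    intro δ hδ
    have h1 := htr ((γ * δ) * (δ * γ)⁻¹)
      (Γ.mul_mem (Γ.mul_mem hγ hδ) (Γ.inv_mem (Γ.mul_mem hδ hγ)))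
      (by simp only [Subgroup.coe_mul, Subgroup.coe_inv, mul_fst, inv_fst]; ring)
    simp only [Subgroup.coe_mul, Subgroup.coe_inv, mul_fst, mul_snd, inv_snd] at h1
    have h2 : exp ((p1 γ) + (p1 δ)) * exp (-((p1 δ) + (p1 γ))) = 1 := by
      rw [← Complex.exp_add, add_comm (p1 δ), add_neg_cancel, Complex.exp_zero]
    have h3 : (p2 γ) + exp (p1 γ) * (p2 δ) = (p2 δ) + exp (p1 δ) * (p2 γ) := by
      linear_combination h1 + ((p2 δ) + exp (p1 δ) * (p2 γ)) * h2
    rw [hz₀]
    field_simp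
    linear_combination -h3
  obtain ⟨C, hC⟩ := hbd (fun g => exp (p1 g) * z₀ + p2 g)
    (((Complex.continuous_exp.comp cont_p1).mul continuous_const).add cont_p2)
    (fun g δ hδ => by
      rw [mul_fst, mul_snd, Complex.exp_add]
      linear_combination (exp (p1 g)) * hfix δ hδ)
  have h3 := hC (mk 0 (((|C| + 1 : ℝ) : ℂ) - z₀))
  simp only [p1_mk, p2_mk, Complex.exp_zero, one_mul, add_sub_cancel, Complex.norm_real, Real.norm_eq_abs] at h3
  have h4 := le_abs_self (|C| + 1)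
  have h5 := le_abs_self C
  linarith

theorem open_orbit (G' : Subgroup Aff) (x : Aff) (h : IsOpen (MulAction.orbit G' x)) : ∀ g, g ∈ G' := by
  have h1 : (G' : Set Aff) = (fun g => g * x) ⁻¹' MulAction.orbit G' x := by
    ext g
    constructor
    · intro hg
      exact ⟨⟨g, hg⟩, rfl⟩
    · rintro ⟨a, ha⟩
      have : (a : Aff) * x = g * x := ha
      rw [← mul_right_cancel this]
      exact a.2
  have h2 : IsOpen (G' : Set Aff) := by
    rw [h1]; exact h.preimage (continuous_mul_const x)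
  have h3 : IsClopen (G' : Set Aff) := ⟨G'.isClosed_of_isOpen h2, h2⟩
  have h4 := h3.eq_univ ⟨1, G'.one_mem⟩
  intro g
  have : g ∈ (G' : Set Aff) := h4 ▸ mem_univ g
  exact this

end Pool.Agent.H152Z.Cartan2
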